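import Mathlib
import Pool.Agent.R138.OM

/-!
# MP_6e3918_co: sub-modular-cuts need not be realized by oriented extensions

Let `O` be the alternating oriented matroid of rank 5 on the eight points `0, ..., 7` of the moment
curve (underlying matroid `U_{5,8}`).  The point `p = v₀ + v₁` gives an extension whose modular cut
contains all flats through `0` and `1`.  The modular cut consisting of the three hyperplanes
`{0,1,2,3}`, `{0,1,4,5}`, `{0,1,6,7}` and of the ground set is contained in it, but no oriented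
single-element extension of `O` corresponds to it.
-/

set_option autoImplicit false

namespace Pool.Agent.Results.MP_6e3918_co.SubModularCut

open Set Pool.Agent.R138.OM

/-- `O'` is a single-element extension of `O` by the element `p`: `p` is not an element of `O`, and
deleting `p` from `O'` (both from the underlying matroid and from the set of signed circuits) gives
`O`. -/
def IsExtension {α : Type} (O O' : OrientedMatroid α) (p : α) : Prop :=
  p ∉ O.M.E ∧ p ∈ O'.M.E ∧ O'.M.delete {p} = O.M ∧ O.C = {X | X ∈ O'.C ∧ X p = 0}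

/-- modular cuts of a matroid `N`: sets of flats closed under taking larger flats and under
intersections of modular pairs -/
def IsModularCut {α : Type} (N : Matroid α) (K : Set (Set α)) : Prop :=
  (∀ F ∈ K, N.IsFlat F) ∧ (∀ F ∈ K, ∀ G, N.IsFlat G → F ⊆ G → G ∈ K) ∧
    ∀ F ∈ K, ∀ G ∈ K, N.eRk F + N.eRk G = N.eRk (F ∪ G) + N.eRk (F ∩ G) → F ∩ G ∈ K

/-- the modular cut of the matroid extension `N'` of `N` by `p`: the flats of `N` whose closure in
`N'` contains `p` -/
def cut {α : Type} (N N' : Matroid α) (p : α) : Set (Set α) := {F | N.IsFlat F ∧ p ∈ N'.closure F}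

/-- `O'` is a single-element extension of `O` by `p` corresponding to the modular cut `K` -/
def Corresponds {α : Type} (O O' : OrientedMatroid α) (p : α) (K : Set (Set α)) : Prop :=
  IsExtension O O' p ∧ cut O.M O'.M p = K

/-! ## Extensions of vector configurations -/

section gen

variable {α : Type} {W : Type} [AddCommGroup W] [Module ℝ W] [DecidableEq α]

theorem dep_insert_iff (v : α → W) (E : Finset α) {p : α} (hp : p ∉ E) (c : α → ℝ) :
    (Dep v (insert p E) c ∧ c p = 0) ↔ Dep v E c := by
  constructor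
  · rintro ⟨⟨h1, h2⟩, h3⟩
    refine ⟨fun e he => ?_, ?_⟩
    · by_cases hep : e = p
      · rw [hep, h3]
      · exact h1 e (by rw [Finset.mem_insert, not_or]; exact ⟨hep, he⟩)
    · rw [Finset.sum_insert hp, h3, zero_smul, zero_add] at h2
      exact h2
  · rintro ⟨h1, h2⟩
    have h3 := h1 p hp
    refine ⟨⟨fun e he => h1 e (fun h => he (Finset.mem_insert_of_mem h)), ?_⟩, h3⟩
    rw [Finset.sum_insert hp, h3, zero_smul, zero_add, h2]

theorem isExtension_ofVectors (v : α → W) (E : Finset α) {p : α} (hp : p ∉ E) :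
    IsExtension (ofVectors v E) (ofVectors v (insert p E)) p := by
  refine ⟨?_, ?_, ?_, ?_⟩
  · change p ∉ (E : Set α)
    exact fun h => hp h
  · change p ∈ ((insert p E : Finset α) : Set α)
    simp
  · have hE : ((insert p E : Finset α) : Set α) \ {p} = (E : Set α) := by
      ext x
      simp only [Finset.coe_insert, mem_sdiff, mem_insert_iff, Finset.mem_coe, mem_singleton_iff]
      constructor
      · rintro ⟨h1 | h1, h2⟩
        · exact absurd h1 h2
        · exact h1
      · intro h
        exact ⟨Or.inr h, fun h' => hp (h' ▸ h)⟩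
    apply Matroid.ext_indep
    · exact hE
    · intro I hI
      change (_ ∧ _) ↔ (_ ∧ _)
      have hI' : I ⊆ ((insert p E : Finset α) : Set α) \ {p} := hI
      have hd : Disjoint I {p} := by
        rw [Set.disjoint_left]
        intro x hx hxp
        exact (hI' hx).2 hxp
      rw [hE] at hI'
      constructor
      · rintro ⟨h1, h2⟩
        have h3 : LinearIndepOn ℝ v I := by
          have := (Matroid.delete_indep_iff.1 ⟨h1, h2⟩).1
          exact this.2
        exact ⟨hI', h3⟩
      · rintro ⟨h1, h2⟩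
        have h4 : ((ofVectors v (insert p E)).M.delete {p}).Indep I := by
          rw [Matroid.delete_indep_iff]
          refine ⟨?_, hd⟩
          change _ ∧ _
          exact ⟨hI'.trans (by rw [Finset.coe_insert]; exact subset_insert _ _), h2⟩
        exact h4
  · ext X
    change (∃ c, MinDep v E c ∧ X = _) ↔ (∃ c, MinDep v (insert p E) c ∧ X = _) ∧ X p = 0
    constructor
    · rintro ⟨c, hc, rfl⟩
      have h1 := (dep_insert_iff v E hp c).2 hc.1
      refine ⟨⟨c, ⟨h1.1, hc.2.1, ?_⟩, rfl⟩, by beta_reduce; rw [h1.2, sign_zero]⟩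
      intro d hd hd0 hsub
      exact hc.2.2 d ((dep_insert_iff v E hp d).1 ⟨hd, hsub p h1.2⟩) hd0 hsub
    · rintro ⟨⟨c, hc, rfl⟩, hp0⟩
      have hp0' : c p = 0 := sign_eq_zero_iff.1 hp0
      refine ⟨c, ⟨(dep_insert_iff v E hp c).1 ⟨hc.1, hp0'⟩, hc.2.1, ?_⟩, rfl⟩
      intro d hd hd0 hsub
      exact hc.2.2 d ((dep_insert_iff v E hp d).2 hd).1 hd0 hsub

end gen

/-- (Crapo) the flats whose closure contains the new element form a modular cut -/
theorem isModularCut_cut {α : Type} (N N' : Matroid α) (hfin : N'.E.Finite) {p : α}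
    (hp : p ∈ N'.E) (hN : N'.delete {p} = N) : IsModularCut N (cut N N' p) := by
  have hE : N.E = N'.E \ {p} := by rw [← hN]; rfl
  have hrk : ∀ X ⊆ N.E, N.eRk X = N'.eRk X := by
    intro X hX
    rw [← hN, Matroid.delete_eq_restrict, Matroid.restrict_eRk_eq]
    rw [hE] at hX
    exact hX
  have hfinrk : ∀ X ⊆ N.E, N'.eRk X ≠ ⊤ := by
    intro X hX htop
    have h1 := N'.eRk_le_encard X
    rw [htop, top_le_iff, Set.encard_eq_top_iff] at h1
    exact h1 (hfin.subset (hX.trans (by rw [hE]; exact sdiff_subset)))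
  refine ⟨fun F hF => hF.1, fun F hF G hG hFG => ⟨hG, N'.closure_subset_closure hFG hF.2⟩, ?_⟩
  rintro F ⟨hF, hpF⟩ G ⟨hG, hpG⟩ hmod
  refine ⟨?_, ?_⟩
  · rw [Matroid.isFlat_iff_closure_eq]
    apply subset_antisymm
    · apply subset_inter
      · have := N.closure_subset_closure (inter_subset_left (s := F) (t := G))
        rwa [hF.closure] at this
      · have := N.closure_subset_closure (inter_subset_right (s := F) (t := G))
        rwa [hG.closure] at this
    · exact N.subset_closure _ (inter_subset_left.trans hF.subset_ground)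
  by_contra hcon
  have hFE : F ⊆ N.E := hF.subset_ground
  have hGE : G ⊆ N.E := hG.subset_ground
  rw [hrk F hFE, hrk G hGE, hrk _ (union_subset hFE hGE), hrk _ (inter_subset_left.trans hFE)]
    at hmod
  have h1 := N'.eRk_insert_eq_add_one (e := p) (X := F ∩ G) ⟨hp, hcon⟩
  have h2 := N'.eRk_insert_inter_add_eRk_insert_union_le (e := p) F G
  have h3 : ∀ X, p ∈ N'.closure X → N'.eRk (insert p X) = N'.eRk X := by
    intro X hX
    rw [← Matroid.eRk_closure_eq, Matroid.closure_insert_eq_of_mem_closure hX,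
      Matroid.eRk_closure_eq]
  rw [h3 F hpF, h3 G hpG, h3 (F ∪ G) (N'.closure_subset_closure subset_union_left hpF), h1, hmod]
    at h2
  have h4 := hfinrk (F ∪ G) (union_subset hFE hGE)
  have h5 := hfinrk (F ∩ G) (inter_subset_left.trans hFE)
  obtain ⟨a, ha⟩ := ENat.ne_top_iff_exists.1 h4
  obtain ⟨b, hb⟩ := ENat.ne_top_iff_exists.1 h5
  rw [← ha, ← hb] at h2
  have h6 : ((b + 1 + a : ℕ) : ℕ∞) ≤ ((a + b : ℕ) : ℕ∞) := by
    push_cast
    exact h2
  have h7 : b + 1 + a ≤ a + b := by exact_mod_cast h6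
  omega

/-! ## The configuration -/

/-- the points `v_n = (1, n, n², n³, n⁴)` for `n < 8`, and `v_8 = v_0 + v_1` -/
noncomputable def vec (n : ℕ) : Fin 5 → ℝ := fun k =>
  if n = 8 then (0 : ℝ) ^ (k : ℕ) + (1 : ℝ) ^ (k : ℕ) else (n : ℝ) ^ (k : ℕ)

/-- a polynomial of degree at most four as a functional -/
theorem functional {f : Polynomial ℝ} (hf : f.natDegree < 5) {c : ℕ → ℝ} {E : Finset ℕ}
    (hE : ∀ e ∈ E, e ≠ 8) (hc : ∑ e ∈ E, c e • vec e = 0) :
    ∑ e ∈ E, c e * f.eval (e : ℝ) = 0 := by
  have h1 : ∀ e ∈ E, c e * f.eval (e : ℝ) = ∑ k : Fin 5, f.coeff k * (c e • vec e) k := by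
    intro e he
    rw [Polynomial.eval_eq_sum_range' hf, Finset.sum_range, Finset.mul_sum]
    apply Finset.sum_congr rfl
    intro k _
    simp only [Pi.smul_apply, smul_eq_mul, vec, if_neg (hE e he)]
    ring
  rw [Finset.sum_congr rfl h1, Finset.sum_comm]
  apply Finset.sum_eq_zero
  intro k _
  rw [← Finset.mul_sum, ← Finset.sum_apply, hc]
  simp

/-- the alternating oriented matroid of rank five on eight elements -/
noncomputable def O : OrientedMatroid ℕ := ofVectors vec (Finset.range 8)

theorem O_E : O.M.E = (Finset.range 8 : Set ℕ) := rfl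

theorem mem_E {x : ℕ} : x ∈ O.M.E ↔ x < 8 := by
  rw [O_E]
  simp

/-- sets with at most five elements are independent -/
theorem indep_of_card {I : Finset ℕ} (hI : I ⊆ Finset.range 8) (hcard : I.card ≤ 5) :
    O.M.Indep (I : Set ℕ) := by
  change _ ∧ _
  refine ⟨Finset.coe_subset.2 hI, ?_⟩
  rw [linearIndepOn_finset_iff]
  intro f hf i hi
  have hdeg : (∏ j ∈ I.erase i, (Polynomial.X - Polynomial.C (j : ℝ))).natDegree < 5 := by
    rw [Polynomial.natDegree_prod_of_monic _ _ (fun j _ => Polynomial.monic_X_sub_C _)]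
    simp only [Polynomial.natDegree_X_sub_C, Finset.sum_const, smul_eq_mul, mul_one,
      Finset.card_erase_of_mem hi]
    have := Finset.card_pos.2 ⟨i, hi⟩
    omega
  have h := functional hdeg (E := I) (fun e he => by
    have := Finset.mem_range.1 (hI he)
    omega) hf
  rw [Finset.sum_eq_single i] at h
  · rcases mul_eq_zero.1 h with h | h
    · exact h
    · exfalso
      rw [Polynomial.eval_prod, Finset.prod_eq_zero_iff] at h
      obtain ⟨j, hj, h0⟩ := h
      rw [Polynomial.eval_sub, Polynomial.eval_X, Polynomial.eval_C, sub_eq_zero] at h0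
      exact (Finset.mem_erase.1 hj).1 (by exact_mod_cast h0.symm)
  · intro e he hne
    rw [Polynomial.eval_prod, Finset.prod_eq_zero (Finset.mem_erase.2 ⟨hne, he⟩)]
    · ring
    · simp
  · intro h'
    exact absurd hi h'

theorem encard_le_five {I : Set ℕ} (hI : O.M.Indep I) : I.encard ≤ 5 := by
  have h : LinearIndepOn ℝ vec I := hI.2
  have := h.encard_le_toENat_rank
  rw [rank_fin_fun] at this
  simpa using this

theorem eRk_le_five (X : Set ℕ) : O.M.eRk X ≤ 5 := by
  obtain ⟨I, hI⟩ := O.M.exists_isBasis' X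
  rw [← hI.encard_eq_eRk]
  exact encard_le_five hI.indep

/-- the hyperplane `{0, 1, a, b}` -/
def hyp (a b : ℕ) : Finset ℕ := {0, 1, a, b}

/-- a four-element subset is a hyperplane: larger flats are the ground set -/
theorem flat_of_card {H : Finset ℕ} (hH : H ⊆ Finset.range 8) (hcard : H.card = 4) :
    O.M.IsFlat (H : Set ℕ) ∧ ∀ G, O.M.IsFlat G → (H : Set ℕ) ⊆ G → G = H ∨ G = O.M.E := by
  have hi := indep_of_card hH (by omega)
  have hins : ∀ x, x < 8 → x ∉ H → O.M.Indep (insert x (H : Set ℕ)) := by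
    intro x hx hxH
    rw [← Finset.coe_insert]
    apply indep_of_card
    · intro y hy
      rcases Finset.mem_insert.1 hy with rfl | hy
      · exact Finset.mem_range.2 hx
      · exact hH hy
    · rw [Finset.card_insert_of_notMem hxH, hcard]
  constructor
  · rw [Matroid.isFlat_iff_closure_eq]
    apply subset_antisymm
    · intro x hx
      rw [hi.mem_closure_iff'] at hx
      by_contra hxH
      exact hxH (hx.2 (hins x (mem_E.1 hx.1) (fun h => hxH h)))
    · exact O.M.subset_closure _ hi.subset_ground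
  · intro G hG hHG
    by_contra hcon
    push Not at hcon
    obtain ⟨x, hxG, hxH⟩ : ∃ x ∈ G, x ∉ (H : Set ℕ) := by
      by_contra h
      push Not at h
      exact hcon.1 (subset_antisymm h hHG)
    have hx8 : x < 8 := mem_E.1 (hG.subset_ground hxG)
    have hbase := hins x hx8 (fun h => hxH h)
    apply hcon.2
    apply subset_antisymm hG.subset_ground
    intro y hy
    by_contra hyG
    have hxi : insert x (H : Set ℕ) ⊆ G := insert_subset hxG hHG
    have hycl : y ∉ O.M.closure (insert x (H : Set ℕ)) := by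
      intro h
      apply hyG
      rw [← hG.closure]
      exact O.M.closure_subset_closure hxi h
    have h6 := (hbase.notMem_closure_iff_of_notMem (fun h => hyG (hxi h)) hy).1 hycl
    have h7 := encard_le_five h6
    rw [Set.encard_insert_of_notMem (fun h => hyG (hxi h)), Set.encard_insert_of_notMem hxH,
      Set.encard_coe_eq_coe_finsetCard, hcard] at h7
    norm_num at h7

/-- the modular cut generated by the three hyperplanes -/
def K : Set (Set ℕ) :=
  {F | F = (hyp 2 3 : Set ℕ) ∨ F = (hyp 4 5 : Set ℕ) ∨ F = (hyp 6 7 : Set ℕ) ∨ F = O.M.E}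

theorem hyp_sub : hyp 2 3 ⊆ Finset.range 8 ∧ hyp 4 5 ⊆ Finset.range 8 ∧
    hyp 6 7 ⊆ Finset.range 8 := by decide

theorem hyp_card : (hyp 2 3).card = 4 ∧ (hyp 4 5).card = 4 ∧ (hyp 6 7).card = 4 := by decide

theorem mem_K_cases {F : Set ℕ} (hF : F ∈ K) :
    (∃ H : Finset ℕ, H ⊆ Finset.range 8 ∧ H.card = 4 ∧ F = H ∧
      (H = hyp 2 3 ∨ H = hyp 4 5 ∨ H = hyp 6 7)) ∨ F = O.M.E := by
  rcases hF with h | h | h | h
  · exact Or.inl ⟨_, hyp_sub.1, hyp_card.1, h, Or.inl rfl⟩
  · exact Or.inl ⟨_, hyp_sub.2.1, hyp_card.2.1, h, Or.inr (Or.inl rfl)⟩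
  · exact Or.inl ⟨_, hyp_sub.2.2, hyp_card.2.2, h, Or.inr (Or.inr rfl)⟩
  · exact Or.inr h

theorem isModularCut_K : IsModularCut O.M K := by
  refine ⟨?_, ?_, ?_⟩
  · intro F hF
    rcases mem_K_cases hF with ⟨H, h1, h2, rfl, -⟩ | rfl
    · exact (flat_of_card h1 h2).1
    · exact O.M.ground_isFlat
  · intro F hF G hG hFG
    rcases mem_K_cases hF with ⟨H, h1, h2, rfl, -⟩ | rfl
    · rcases (flat_of_card h1 h2).2 G hG hFG with h | h
      · rw [h]
        exact hF
      · exact Or.inr (Or.inr (Or.inr h))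
    · exact Or.inr (Or.inr (Or.inr (subset_antisymm hG.subset_ground hFG)))
  · intro F hF G hG hmod
    rcases mem_K_cases hF with ⟨H, h1, h2, rfl, h3⟩ | rfl
    · rcases mem_K_cases hG with ⟨H', h1', h2', rfl, h3'⟩ | rfl
      · by_cases heq : H = H'
        · subst heq
          rw [inter_self]
          exact hF
        · exfalso
          have hinter : (H ∩ H').card ≤ 2 := by
            rcases h3 with rfl | rfl | rfl <;> rcases h3' with rfl | rfl | rfl <;>
              first | exact absurd rfl heq | decide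
          have e1 : O.M.eRk (H : Set ℕ) = 4 := by
            rw [(indep_of_card h1 (by omega)).eRk_eq_encard, Set.encard_coe_eq_coe_finsetCard, h2]
            rfl
          have e2 : O.M.eRk (H' : Set ℕ) = 4 := by
            rw [(indep_of_card h1' (by omega)).eRk_eq_encard, Set.encard_coe_eq_coe_finsetCard,
              h2']
            rfl
          have e3 : O.M.eRk ((H : Set ℕ) ∩ (H' : Set ℕ)) ≤ 2 := by
            refine (O.M.eRk_le_encard _).trans ?_
            rw [← Finset.coe_inter, Set.encard_coe_eq_coe_finsetCard]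
            exact_mod_cast hinter
          have e4 := eRk_le_five ((H : Set ℕ) ∪ (H' : Set ℕ))
          rw [e1, e2] at hmod
          have e5 : (4 : ℕ∞) + 4 ≤ 5 + 2 := by
            rw [hmod]
            exact add_le_add e4 e3
          norm_num at e5
      · rw [inter_eq_left.2 (indep_of_card h1 (by omega)).subset_ground]
        exact hF
    · have : G ⊆ O.M.E := by
        rcases mem_K_cases hG with ⟨H', h1', h2', rfl, -⟩ | rfl
        · exact (indep_of_card h1' (by omega)).subset_ground
        · exact subset_rfl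
      rw [inter_eq_right.2 this]
      exact hG

/-- the flat `{0, 1}` is not in the cut -/
theorem pair_flat : O.M.IsFlat (({0, 1} : Finset ℕ) : Set ℕ) := by
  have hi : O.M.Indep (({0, 1} : Finset ℕ) : Set ℕ) := indep_of_card (by decide) (by decide)
  rw [Matroid.isFlat_iff_closure_eq]
  apply subset_antisymm
  · intro x hx
    rw [hi.mem_closure_iff'] at hx
    by_contra hxH
    apply hxH
    apply hx.2
    rw [← Finset.coe_insert]
    apply indep_of_card
    · intro y hy
      rcases Finset.mem_insert.1 hy with rfl | hy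
      · exact Finset.mem_range.2 (mem_E.1 hx.1)
      · exact (by decide : ({0, 1} : Finset ℕ) ⊆ Finset.range 8) hy
    · exact (Finset.card_insert_le _ _).trans (by decide)
  · exact O.M.subset_closure _ hi.subset_ground

theorem pair_notMem_K : (({0, 1} : Finset ℕ) : Set ℕ) ∉ K := by
  intro h
  rcases mem_K_cases h with ⟨H, h1, h2, h3, -⟩ | h3
  · have : ({0, 1} : Finset ℕ) = H := Finset.coe_injective h3
    rw [← this] at h2
    exact absurd h2 (by decide)
  · have h4 : (2 : ℕ) ∈ O.M.E := mem_E.2 (by norm_num)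
    rw [← h3] at h4
    simp at h4

/-- signs of the dependencies on six points alternate -/
theorem alternate {c : ℕ → ℝ} (hc : Dep vec (Finset.range 8) c) (d : Fin 6 → ℕ)
    (hd : StrictMono d) (hd8 : ∀ i, d i < 8) (hsupp : ∀ e, c e ≠ 0 → ∃ i, d i = e) (i : Fin 5) :
    SignType.sign (c (d i.succ)) = - SignType.sign (c (d i.castSucc)) := by
  set R : Finset (Fin 6) := (Finset.univ.erase i.castSucc).erase i.succ with hR
  set f : Polynomial ℝ := ∏ j ∈ R, (Polynomial.X - Polynomial.C ((d j : ℕ) : ℝ)) with hf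
  have hne : i.succ ≠ i.castSucc := by
    intro h
    have := congrArg Fin.val h
    simp at this
  have hcardR : R.card = 4 := by
    rw [hR, Finset.card_erase_of_mem (Finset.mem_erase.2 ⟨hne, Finset.mem_univ _⟩),
      Finset.card_erase_of_mem (Finset.mem_univ _), Finset.card_univ, Fintype.card_fin]
  have hdeg : f.natDegree < 5 := by
    rw [hf, Polynomial.natDegree_prod_of_monic _ _ (fun j _ => Polynomial.monic_X_sub_C _)]
    simp only [Polynomial.natDegree_X_sub_C, Finset.sum_const, smul_eq_mul, mul_one, hcardR]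
    norm_num
  have h := functional hdeg (E := Finset.range 8) (fun e he => by
    have := Finset.mem_range.1 he
    omega) hc.2
  have hsub : (Finset.univ.image d) ⊆ Finset.range 8 := by
    intro x hx
    obtain ⟨j, -, rfl⟩ := Finset.mem_image.1 hx
    exact Finset.mem_range.2 (hd8 j)
  rw [← Finset.sum_subset hsub (fun x _ hx => by
    have : c x = 0 := by
      by_contra h0
      obtain ⟨j, hj⟩ := hsupp x h0
      exact hx (Finset.mem_image.2 ⟨j, Finset.mem_univ _, hj⟩)
    rw [this, zero_mul]), Finset.sum_image (fun a _ b _ hab => hd.injective hab)] at h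
  have heval : ∀ x : ℕ, f.eval (x : ℝ) = ∏ j ∈ R, ((x : ℝ) - (d j : ℝ)) := by
    intro x
    rw [hf, Polynomial.eval_prod]
    simp
  have hzero : ∀ j ∈ R, f.eval ((d j : ℕ) : ℝ) = 0 := by
    intro j hj
    rw [heval]
    exact Finset.prod_eq_zero hj (sub_self _)
  have hsum : c (d i.castSucc) * f.eval ((d i.castSucc : ℕ) : ℝ) +
      c (d i.succ) * f.eval ((d i.succ : ℕ) : ℝ) = 0 := by
    rw [← h, ← Finset.add_sum_erase Finset.univ _ (Finset.mem_univ i.castSucc),
      ← Finset.add_sum_erase (Finset.univ.erase i.castSucc) _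
        (Finset.mem_erase.2 ⟨hne, Finset.mem_univ _⟩),
      Finset.sum_eq_zero (s := (Finset.univ.erase i.castSucc).erase i.succ)]
    · ring
    · intro j hj
      rw [hzero j hj, mul_zero]
  have hpos : 0 < f.eval ((d i.castSucc : ℕ) : ℝ) * f.eval ((d i.succ : ℕ) : ℝ) := by
    rw [heval, heval, ← Finset.prod_mul_distrib]
    apply Finset.prod_pos
    intro j hj
    rw [hR, Finset.mem_erase, Finset.mem_erase] at hj
    have hlt : j < i.castSucc ∨ i.succ < j := by
      rcases lt_trichotomy j i.castSucc with h1 | h1 | h1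
      · exact Or.inl h1
      · exact absurd h1 hj.2.1
      · right
        have h2 : (i.castSucc : Fin 6).val < j.val := h1
        have h3 : j.val ≠ (i.succ : Fin 6).val := fun h4 => hj.1 (Fin.ext h4)
        rw [Fin.lt_def]
        rw [Fin.val_castSucc] at h2
        rw [Fin.val_succ] at h3 ⊢
        omega
    have hcs : i.castSucc < i.succ := Fin.castSucc_lt_succ
    rcases hlt with h1 | h1
    · have h2 : (d j : ℝ) < d i.castSucc := by exact_mod_cast hd h1
      have h3 : (d j : ℝ) < d i.succ := by exact_mod_cast hd (h1.trans hcs)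
      exact mul_pos (by linarith) (by linarith)
    · have h2 : (d i.succ : ℝ) < d j := by exact_mod_cast hd h1
      have h3 : (d i.castSucc : ℝ) < d j := by exact_mod_cast hd (hcs.trans h1)
      exact mul_pos_of_neg_of_neg (by linarith) (by linarith)
  set A := f.eval ((d i.castSucc : ℕ) : ℝ)
  set B := f.eval ((d i.succ : ℕ) : ℝ)
  have hB : B ≠ 0 := by
    intro h0
    rw [h0, mul_zero] at hpos
    exact lt_irrefl _ hpos
  have h1 : c (d i.succ) = (A * B * (B * B)⁻¹) * (- c (d i.castSucc)) := by
    field_simp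
    linarith
  rw [h1, sign_mul, sign_pos (mul_pos hpos (inv_pos.2 (mul_self_pos.2 hB))), one_mul,
    Left.sign_neg]

theorem sneg0 : ∀ s : SignType, -s = 0 → s = 0 := by decide

theorem snegne : ∀ s : SignType, s ≠ 0 → -s ≠ 0 := by decide

/-- elimination of `q` between two circuits through `q`: a sign relation -/
theorem eliminate {O'' : OrientedMatroid ℕ} {q : ℕ} (hcor : Corresponds O O'' q K)
    {X Y : ℕ → SignType} (hX : X ∈ O''.C) (hY : Y ∈ O''.C) (hXq : X q = 1) (hYq : Y q = 1)
    (a b : ℕ) (a' b' : ℕ) (ha : 1 < a) (hb : a < b) (ha' : b < a') (hb' : a' < b') (h8 : b' < 8)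
    (hXs : ∀ e, X e ≠ 0 → e = q ∨ e = 0 ∨ e = 1 ∨ e = a ∨ e = b)
    (hYs : ∀ e, Y e ≠ 0 → e = q ∨ e = 0 ∨ e = 1 ∨ e = a' ∨ e = b') :
    X a ≠ 0 ∧ X b = - X a ∧ Y a' = - X a ∧ Y b' = X a := by
  obtain ⟨⟨hqE, -, -, hC⟩, hcut⟩ := hcor
  have hq8 : 8 ≤ q := by
    by_contra h
    exact hqE (mem_E.2 (not_le.1 h))
  have hXY : X ≠ Y := by
    rintro rfl
    have hsub : ∀ e, X e ≠ 0 → e = q ∨ e = 0 ∨ e = 1 := by
      intro e he
      have h1 := hXs e he
      have h2 := hYs e he
      omega
    have hcirc : O''.M.IsCircuit {e | X e ≠ 0} := (O''.isCircuit_iff _).2 ⟨X, hX, rfl⟩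
    have hq : q ∈ {e | X e ≠ 0} := by
      rw [mem_ofPred_eq, hXq]
      decide
    have hcl : q ∈ O''.M.closure ({e | X e ≠ 0} \ {q}) :=
      hcirc.mem_closure_sdiff_singleton_of_mem hq
    have hcl2 : q ∈ O''.M.closure (({0, 1} : Finset ℕ) : Set ℕ) := by
      refine O''.M.closure_subset_closure ?_ hcl
      rintro e ⟨he, heq⟩
      rcases hsub e he with h | h | h
      · exact absurd h heq
      · simp [h]
      · simp [h]
    apply pair_notMem_K
    rw [← hcut]
    exact ⟨pair_flat, hcl2⟩
  have hnegY := O''.neg_mem Y hY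
  obtain ⟨Z, hZ, hZq, hZs⟩ := O''.elim X hX _ hnegY (by
    intro h
    apply hXY
    funext e
    have := congrFun h e
    simp only [neg_neg] at this
    exact this) q hXq (by beta_reduce; rw [hYq])
  have hZO : Z ∈ O.C := by
    rw [hC]
    exact ⟨hZ, hZq⟩
  obtain ⟨c, hc, rfl⟩ := hZO
  have hval : ∀ e, SignType.sign (c e) ≠ 0 → SignType.sign (c e) = X e ∨
      SignType.sign (c e) = - Y e := by
    intro e he
    have h1 := hZs e
    rcases hs : SignType.sign (c e) with _ | _ | _
    · exact absurd hs he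
    · rcases h1.2 hs with h | h
      · exact Or.inl h.symm
      · exact Or.inr h.symm
    · rcases h1.1 hs with h | h
      · exact Or.inl h.symm
      · exact Or.inr h.symm
  have hsupp : ∀ e, c e ≠ 0 → e = 0 ∨ e = 1 ∨ e = a ∨ e = b ∨ e = a' ∨ e = b' := by
    intro e he
    have hse : SignType.sign (c e) ≠ 0 := sign_ne_zero.2 he
    have heq : e ≠ q := by
      rintro rfl
      exact hse hZq
    rcases hval e hse with h | h
    · have hXe : X e ≠ 0 := by rw [← h]; exact hse
      have := hXs e hXe
      omega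
    · have hYe : Y e ≠ 0 := by
        intro h0
        rw [h0] at h
        exact hse (by rw [h]; rfl)
      have := hYs e hYe
      omega
  have halt := alternate hc.1 ![0, 1, a, b, a', b'] (by
    rw [Fin.strictMono_iff_lt_succ]
    intro i
    fin_cases i <;> simp <;> omega) (by
    intro i
    fin_cases i <;> simp <;> omega) (by
    intro e he
    rcases hsupp e he with h | h | h | h | h | h
    · exact ⟨0, h.symm⟩
    · exact ⟨1, h.symm⟩
    · exact ⟨2, h.symm⟩
    · exact ⟨3, h.symm⟩
    · exact ⟨4, h.symm⟩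
    · exact ⟨5, h.symm⟩)
  have e0 : SignType.sign (c 1) = - SignType.sign (c 0) := halt 0
  have e1 : SignType.sign (c a) = - SignType.sign (c 1) := halt 1
  have e2 : SignType.sign (c b) = - SignType.sign (c a) := halt 2
  have e3 : SignType.sign (c a') = - SignType.sign (c b) := halt 3
  have e4 : SignType.sign (c b') = - SignType.sign (c a') := halt 4
  -- all the coefficients are nonzero
  have hne : SignType.sign (c a) ≠ 0 := by
    intro h0
    have h1 : SignType.sign (c 1) = 0 := by
      rw [h0] at e1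
      exact sneg0 _ e1.symm
    have h2 : SignType.sign (c 0) = 0 := by
      rw [h1] at e0
      exact sneg0 _ e0.symm
    rw [h0, neg_zero] at e2
    rw [e2, neg_zero] at e3
    rw [e3, neg_zero] at e4
    apply hc.2.1
    funext e
    by_contra he
    rcases hsupp e he with h | h | h | h | h | h
    · exact he (h ▸ sign_eq_zero_iff.1 h2)
    · exact he (h ▸ sign_eq_zero_iff.1 h1)
    · exact he (h ▸ sign_eq_zero_iff.1 h0)
    · exact he (h ▸ sign_eq_zero_iff.1 e2)
    · exact he (h ▸ sign_eq_zero_iff.1 e3)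
    · exact he (h ▸ sign_eq_zero_iff.1 e4)
  have hX0 : ∀ e, e ≠ q → e ≠ 0 → e ≠ 1 → e ≠ a → e ≠ b → X e = 0 := by
    intro e h1 h2 h3 h4 h5
    by_contra h
    rcases hXs e h with h | h | h | h | h <;> contradiction
  have hY0 : ∀ e, e ≠ q → e ≠ 0 → e ≠ 1 → e ≠ a' → e ≠ b' → Y e = 0 := by
    intro e h1 h2 h3 h4 h5
    by_contra h
    rcases hYs e h with h | h | h | h | h <;> contradiction
  have hb0 : SignType.sign (c b) ≠ 0 := by rw [e2]; exact snegne _ hne
  have ha'0 : SignType.sign (c a') ≠ 0 := by rw [e3]; exact snegne _ hb0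
  have hb'0 : SignType.sign (c b') ≠ 0 := by rw [e4]; exact snegne _ ha'0
  have va : SignType.sign (c a) = X a := by
    rcases hval a hne with h | h
    · exact h
    · rw [hY0 a (by omega) (by omega) (by omega) (by omega) (by omega), neg_zero] at h
      exact absurd h hne
  have vb : SignType.sign (c b) = X b := by
    rcases hval b hb0 with h | h
    · exact h
    · rw [hY0 b (by omega) (by omega) (by omega) (by omega) (by omega), neg_zero] at h
      exact absurd h hb0
  have va' : SignType.sign (c a') = - Y a' := by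
    rcases hval a' ha'0 with h | h
    · rw [hX0 a' (by omega) (by omega) (by omega) (by omega) (by omega)] at h
      exact absurd h ha'0
    · exact h
  have vb' : SignType.sign (c b') = - Y b' := by
    rcases hval b' hb'0 with h | h
    · rw [hX0 b' (by omega) (by omega) (by omega) (by omega) (by omega)] at h
      exact absurd h hb'0
    · exact h
  rw [va] at hne e2
  rw [vb] at e2 e3
  rw [va'] at e3 e4
  rw [vb'] at e4
  refine ⟨hne, e2, ?_, ?_⟩
  · rw [e2, neg_neg] at e3
    rw [← e3, neg_neg]
  · rw [neg_neg] at e4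
    rw [e2, neg_neg] at e3
    have h1 : Y a' = - X a := by rw [← e3, neg_neg]
    have h2 : Y b' = - Y a' := by rw [← e4, neg_neg]
    rw [h2, h1, neg_neg]

/-- a signed circuit through `q` inside a hyperplane of the cut -/
theorem exists_circuit {O'' : OrientedMatroid ℕ} {q : ℕ} (hcor : Corresponds O O'' q K)
    {H : Finset ℕ} (hHK : (H : Set ℕ) ∈ K) (hH : H ⊆ Finset.range 8) :
    ∃ X ∈ O''.C, X q = 1 ∧ ∀ e, X e ≠ 0 → e = q ∨ e ∈ H := by
  obtain ⟨⟨hqE, -, -, -⟩, hcut⟩ := hcor
  rw [← hcut] at hHK
  have hqH : q ∉ (H : Set ℕ) := by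
    intro h
    exact hqE (mem_E.2 (Finset.mem_range.1 (hH h)))
  obtain ⟨D, hD, hDc, hqD⟩ := (Matroid.mem_closure_iff_exists_isCircuit hqH).1 hHK.2
  obtain ⟨X, hX, rfl⟩ := (O''.isCircuit_iff D).1 hDc
  have hsub : ∀ e, X e ≠ 0 → e = q ∨ e ∈ H := by
    intro e he
    rcases hD he with h | h
    · exact Or.inl h
    · exact Or.inr h
  have hXq : X q ≠ 0 := hqD
  rcases hs : X q with _ | _ | _
  · exact absurd hs hXq
  · refine ⟨_, O''.neg_mem X hX, ?_, ?_⟩
    · beta_reduce
      rw [hs]
      rfl
    · intro e he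
      apply hsub
      intro h0
      simp only [h0] at he
      exact he rfl
  · exact ⟨X, hX, hs, hsub⟩

theorem not_corresponds (O'' : OrientedMatroid ℕ) (q : ℕ) : ¬ Corresponds O O'' q K := by
  intro hcor
  obtain ⟨X, hX, hXq, hXs⟩ := exists_circuit hcor (H := hyp 2 3) (Or.inl rfl) hyp_sub.1
  obtain ⟨Y, hY, hYq, hYs⟩ := exists_circuit hcor (H := hyp 4 5) (Or.inr (Or.inl rfl)) hyp_sub.2.1
  obtain ⟨Z, hZ, hZq, hZs⟩ := exists_circuit hcor (H := hyp 6 7)
    (Or.inr (Or.inr (Or.inl rfl))) hyp_sub.2.2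
  simp only [hyp, Finset.mem_insert, Finset.mem_singleton] at hXs hYs hZs
  obtain ⟨h1, -, h2, -⟩ := eliminate hcor hX hY hXq hYq 2 3 4 5 (by norm_num) (by norm_num)
    (by norm_num) (by norm_num) (by norm_num) hXs hYs
  obtain ⟨-, -, h3, -⟩ := eliminate hcor hX hZ hXq hZq 2 3 6 7 (by norm_num) (by norm_num)
    (by norm_num) (by norm_num) (by norm_num) hXs hZs
  obtain ⟨-, -, h4, -⟩ := eliminate hcor hY hZ hYq hZq 4 5 6 7 (by norm_num) (by norm_num)
    (by norm_num) (by norm_num) (by norm_num) hYs hZs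
  rw [h2, neg_neg, h3] at h4
  rcases hs : X 2 with _ | _ | _
  · exact h1 hs
  · rw [hs] at h4
    exact absurd h4 (by decide)
  · rw [hs] at h4
    exact absurd h4 (by decide)

/-- **A modular cut contained in the modular cut of an oriented extension need not come from an
oriented extension.** -/
theorem result : ∃ (O O' : OrientedMatroid ℕ) (p : ℕ) (K K' : Set (Set ℕ)),
    O'.M.E.Finite ∧ IsModularCut O.M K ∧ Corresponds O O' p K ∧
      IsModularCut O.M K' ∧ K' ⊆ K ∧
      ∀ (O'' : OrientedMatroid ℕ) (q : ℕ), ¬ Corresponds O O'' q K' := by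
  have hext : IsExtension O (ofVectors vec (insert 8 (Finset.range 8))) 8 :=
    isExtension_ofVectors vec (Finset.range 8) (by simp)
  refine ⟨O, ofVectors vec (insert 8 (Finset.range 8)), 8,
    cut O.M (ofVectors vec (insert 8 (Finset.range 8))).M 8, K,
    Finset.finite_toSet _, isModularCut_cut _ _ (Finset.finite_toSet _) hext.2.1 hext.2.2.1,
    ⟨hext, rfl⟩, isModularCut_K, ?_, not_corresponds⟩
  intro F hF
  refine ⟨isModularCut_K.1 F hF, ?_⟩
  have h01 : (0 : ℕ) ∈ F ∧ (1 : ℕ) ∈ F := by
    rcases mem_K_cases hF with ⟨H, -, -, rfl, rfl | rfl | rfl⟩ | rfl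
    · exact ⟨by simp [hyp], by simp [hyp]⟩
    · exact ⟨by simp [hyp], by simp [hyp]⟩
    · exact ⟨by simp [hyp], by simp [hyp]⟩
    · exact ⟨mem_E.2 (by norm_num), mem_E.2 (by norm_num)⟩
  have hrep := Pool.Agent.Helper236.linMatroid_rep (F := ℝ) vec
    ((insert 8 (Finset.range 8) : Finset ℕ) : Set ℕ) (Finset.finite_toSet _)
  have hFE : F ⊆ ((insert 8 (Finset.range 8) : Finset ℕ) : Set ℕ) := by
    have h1 : F ⊆ O.M.E := (isModularCut_K.1 F hF).subset_ground
    intro x hx
    have h2 := mem_E.1 (h1 hx)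
    simp
    omega
  refine (hrep.mem_closure_iff hFE ?_).2 ?_
  · simp
  · have h8 : vec 8 = vec 0 + vec 1 := by
      funext k
      simp [vec]
    rw [h8]
    exact add_mem (Submodule.subset_span (mem_image_of_mem _ h01.1))
      (Submodule.subset_span (mem_image_of_mem _ h01.2))

end Pool.Agent.Results.MP_6e3918_co.SubModularCut
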